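import Mathlib

/-! Groups acting by affine maps with finitely many linear parts on finitely many lattices. -/

set_option autoImplicit false

namespace Pool.Agent.MP_61a8e3_al.D

/-- A homomorphism to the integers with a nonzero value can be rescaled to a surjection. -/
theorem surj_of_ne {Λ : Type} [Group Λ] (f : Λ →* Multiplicative ℤ) (a : Λ) (ha : f a ≠ 1) :
    ∃ f' : Λ →* Multiplicative ℤ, Function.Surjective f' ∧ ∀ α, f α = 1 → f' α = 1 := by
  obtain ⟨d, hd⟩ := Int.subgroup_cyclic (Subgroup.toAddSubgroup' f.range)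
  have hmem : ∀ n : ℤ, Multiplicative.ofAdd n ∈ f.range ↔ d ∣ n := by
    intro n
    have : n ∈ Subgroup.toAddSubgroup' f.range ↔ d ∣ n := by
      rw [hd, AddSubgroup.mem_closure_singleton]
      constructor
      · rintro ⟨k, rfl⟩; exact ⟨k, by simp [mul_comm]⟩
      · rintro ⟨k, rfl⟩; exact ⟨k, by simp [mul_comm]⟩
    exact this
  have hdv : ∀ α, d ∣ (f α).toAdd := fun α => (hmem _).1 ⟨α, rfl⟩
  have hd0 : d ≠ 0 := by
    rintro rfl
    exact ha (Multiplicative.toAdd.injective (zero_dvd_iff.1 (hdv a)))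
  refine ⟨⟨⟨fun α => Multiplicative.ofAdd ((f α).toAdd / d), by simp⟩, fun x y => ?_⟩, ?_, ?_⟩
  · simp only [map_mul, toAdd_mul]
    rw [Int.add_ediv_of_dvd_right (hdv y), ofAdd_add]
  · intro n
    obtain ⟨α, hα⟩ := (hmem (d * n.toAdd)).2 (dvd_mul_right _ _)
    refine ⟨α, ?_⟩
    show Multiplicative.ofAdd ((f α).toAdd / d) = n
    rw [hα, toAdd_ofAdd, Int.mul_ediv_cancel_left _ hd0, ofAdd_toAdd]
  · intro α hα
    show Multiplicative.ofAdd ((f α).toAdd / d) = 1
    rw [hα]; simp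

theorem aff_fin {G Y Θ V : Type} [Group G] [Finite Θ] [AddCommGroup V] (e : Θ × V ≃ Y)
    (𝒜 : Set (V →+ V)) (h𝒜 : 𝒜.Finite) (Φ : G →* Equiv.Perm Y)
    (h : ∀ (γ : G) (θ : Θ), ∃ θ' : Θ, ∃ A ∈ 𝒜, ∃ b : V, ∀ v, Φ γ (e (θ, v)) = e (θ', A v + b))
    (θ0 : Θ) (γ0 : G) (b0 : V) (h0 : ∀ v, Φ γ0 (e (θ0, v)) = e (θ0, v + b0))
    (ℓ : V →+ ℤ) (hℓ : ℓ b0 ≠ 0) :
    ∃ Λ : Subgroup G, Λ.FiniteIndex ∧ ∃ f : Λ →* Multiplicative ℤ, Function.Surjective f ∧
      ∀ α : Λ, Φ α = 1 → f α = 1 := by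
  let Λ : Subgroup G :=
    { carrier := {γ | ∃ b, ∀ v, Φ γ (e (θ0, v)) = e (θ0, v + b)}
      mul_mem' := by
        rintro x y ⟨b, hb⟩ ⟨c, hc⟩
        exact ⟨c + b, fun v => by rw [map_mul, Equiv.Perm.mul_apply, hc, hb, add_assoc]⟩
      one_mem' := ⟨0, fun v => by simp⟩
      inv_mem' := by
        rintro x ⟨b, hb⟩
        refine ⟨-b, fun v => ?_⟩
        rw [map_inv, Equiv.Perm.inv_eq_iff_eq, hb, neg_add_cancel_right] }
  have hΛ : Λ.FiniteIndex := by
    choose θ A hA b hb using h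
    have : Finite 𝒜 := h𝒜
    have key : ∀ x y : G, θ x θ0 = θ y θ0 → A x θ0 = A y θ0 → x⁻¹ * y ∈ Λ := by
      intro x y h1 h2
      have h3 : θ x⁻¹ (θ x θ0) = θ0 := by
        have h4 := hb x⁻¹ (θ x θ0) (A x θ0 0 + b x θ0)
        rw [← hb, map_inv, Equiv.Perm.coe_inv, Equiv.symm_apply_apply] at h4
        exact (congrArg Prod.fst (e.injective h4)).symm
      have h5 := hb x⁻¹ (θ x θ0) (b y θ0)
      rw [h3, map_inv, Equiv.Perm.inv_eq_iff_eq, hb] at h5
      have h6 := congrArg Prod.snd (e.injective h5)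
      refine ⟨A x⁻¹ (θ x θ0) (b y θ0) + b x⁻¹ (θ x θ0), fun v => ?_⟩
      rw [map_mul, Equiv.Perm.mul_apply, map_inv, Equiv.Perm.inv_eq_iff_eq, hb, hb, ← h1, ← h2,
        map_add (A x θ0) v, add_assoc]
      simp only [] at h6
      rw [← h6]
    have : Finite (G ⧸ Λ) := by
      refine Finite.of_injective
        (fun q : G ⧸ Λ => ((θ q.out θ0, ⟨A q.out θ0, hA _ _⟩) : Θ × 𝒜)) fun p q hpq => ?_
      have h1 := key p.out q.out (congrArg Prod.fst hpq)
        (congrArg Subtype.val (congrArg Prod.snd hpq))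
      rw [← QuotientGroup.out_eq' p, ← QuotientGroup.out_eq' q]
      exact QuotientGroup.eq.2 h1
    exact Subgroup.finiteIndex_of_finite_quotient
  have hu : ∀ (γ : G) (b c : V), (∀ v, Φ γ (e (θ0, v)) = e (θ0, v + b)) →
      (∀ v, Φ γ (e (θ0, v)) = e (θ0, v + c)) → b = c := by
    intro γ b c hb hc
    simpa using congrArg Prod.snd (e.injective ((hb 0).symm.trans (hc 0)))
  choose t ht using fun α : Λ => α.2
  let f : Λ →* Multiplicative ℤ := MonoidHom.mk' (fun α => Multiplicative.ofAdd (ℓ (t α)))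
    (fun x y => by
      have : t (x * y) = t y + t x := hu (x * y : Λ) _ _ (ht _) fun v => by
        rw [Subgroup.coe_mul, map_mul, Equiv.Perm.mul_apply, ht, ht, add_assoc]
      rw [this, map_add, add_comm, ofAdd_add])
  obtain ⟨f', h1, h2⟩ := surj_of_ne f ⟨γ0, b0, h0⟩ (fun h1 => hℓ (by
    rw [← hu γ0 _ _ (ht ⟨γ0, b0, h0⟩) h0]
    exact Multiplicative.ofAdd.injective h1))
  refine ⟨Λ, hΛ, f', h1, fun α hα => h2 α ?_⟩
  have : t α = 0 := hu α _ _ (ht α) fun v => by rw [hα]; simp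
  show Multiplicative.ofAdd (ℓ (t α)) = 1
  rw [this, map_zero]; rfl

/-- Additive maps of a lattice that preserve a function with finite level sets are finite in
number. -/
theorem finite_isom {ι R β : Type} [Fintype ι] [DecidableEq ι] [Ring R] (q : (ι → R) → β)
    (hq : ∀ n, {v | q v = n}.Finite) :
    {A : (ι → R) →+ (ι → R) | (∀ (r : R) v, A (r • v) = r • A v) ∧ ∀ v, q (A v) = q v}.Finite := by
  refine Set.Finite.of_finite_image (f := fun A i => A (Pi.single i 1)) ?_ ?_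
  · refine (Set.Finite.pi' fun i => hq (q (Pi.single i 1))).subset ?_
    rintro _ ⟨A, hA, rfl⟩ i
    exact hA.2 _
  · intro A hA B hB hAB
    refine AddMonoidHom.ext fun v => ?_
    have hv : v = ∑ i, v i • (Pi.single i 1 : ι → R) := by
      ext j; simp [Finset.sum_apply, Pi.single_apply]
    rw [hv, map_sum, map_sum]
    refine Finset.sum_congr rfl fun i _ => ?_
    rw [hA.1, hB.1]
    exact congrArg _ (congrFun hAB i)

/-- Level sets of the standard norm on Gaussian vectors, pulled back by an injective map. -/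
theorem finite_level {ι V : Type} [Fintype ι] (B : V → ι → GaussianInt) (hB : Function.Injective B)
    (n : ℤ) : {v | ∑ i, (B v i).norm = n}.Finite := by
  have h1 : {z : GaussianInt | z.norm ≤ n}.Finite := by
    refine Set.Finite.of_finite_image (f := fun z => (z.re, z.im)) ?_
      (fun a _ b _ h => Zsqrtd.ext (congrArg Prod.fst h) (congrArg Prod.snd h))
    refine ((Set.finite_Icc (-n) n).prod (Set.finite_Icc (-n) n)).subset ?_
    rintro _ ⟨z, hz, rfl⟩
    simp only [Set.mem_ofPred_eq, Zsqrtd.norm_def] at hz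
    simp only [Set.mem_prod, Set.mem_Icc]
    refine ⟨⟨?_, ?_⟩, ?_, ?_⟩ <;> nlinarith [sq_nonneg (z.re - 1), sq_nonneg (z.re + 1),
      sq_nonneg (z.im - 1), sq_nonneg (z.im + 1), Int.le_self_sq z.re, Int.le_self_sq z.im,
      Int.le_self_sq (-z.re), Int.le_self_sq (-z.im), sq_nonneg z.re, sq_nonneg z.im]
  refine Set.Finite.of_finite_image (f := B) ?_ hB.injOn
  refine (Set.Finite.pi' fun _ => h1).subset ?_
  rintro _ ⟨v, hv, rfl⟩ i
  simp only [Set.mem_ofPred_eq] at hv ⊢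
  rw [← hv]
  exact Finset.single_le_sum (f := fun i => (B v i).norm)
    (fun j _ => GaussianInt.norm_nonneg _) (Finset.mem_univ i)

end Pool.Agent.MP_61a8e3_al.D
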