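import Mathlib

/-! The definitions used in the statement of the hand-in. -/

set_option autoImplicit false

namespace Pool.Agent.MP_61a8e3_al.Stmt

/-- the product of the commutators of the standard generators -/
def surfRel (g : ℕ) : FreeGroup (Fin g ⊕ Fin g) :=
  (List.ofFn (fun i : Fin g => FreeGroup.of (Sum.inl i : Fin g ⊕ Fin g) *
    FreeGroup.of (Sum.inr i : Fin g ⊕ Fin g) * (FreeGroup.of (Sum.inl i : Fin g ⊕ Fin g))⁻¹ *
    (FreeGroup.of (Sum.inr i : Fin g ⊕ Fin g))⁻¹)).prod

/-- the fundamental group of the closed orientable surface of genus `g` -/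
def Surf (g : ℕ) : Type := PresentedGroup ({surfRel g} : Set (FreeGroup (Fin g ⊕ Fin g)))

instance instGroupSurf (g : ℕ) : Group (Surf g) :=
  instGroupPresentedGroup ({surfRel g} : Set (FreeGroup (Fin g ⊕ Fin g)))

/-- the outer automorphism group -/
def Out (G : Type) [Group G] : Type :=
  MulAut G ⧸ Subgroup.normalClosure (Set.range (MulAut.conj : G →* MulAut G))

instance instGroupOut (G : Type) [Group G] : Group (Out G) :=
  QuotientGroup.Quotient.group
    (Subgroup.normalClosure (Set.range (MulAut.conj : G →* MulAut G)))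

/-- some homomorphism from `Γ` to `H` has infinite cyclic image -/
def HasIntImage {G : Type} [Group G] (Γ : Subgroup G) (H : Type) [Group H] : Prop :=
  ∃ φ : Γ →* H, Nonempty (φ.range ≃* Multiplicative ℤ)

end Pool.Agent.MP_61a8e3_al.Stmt
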