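import Mathlib

/-! Part T: binary trees of numbers. -/

set_option autoImplicit false

namespace Pool.Agent.MP_61a8e3_al.T

/-- binary trees of numbers -/
inductive Tr
  | leaf (n : ℕ)
  | node (l r : Tr)

/-- lookup, lowest bit first -/
noncomputable def Tr.get (t : Tr) : ℕ → ℕ :=
  Tr.rec (motive := fun _ => ℕ → ℕ) (fun n _ => n)
    (fun _ _ l r i => Nat.rec (l (Nat.div i 2)) (fun _ _ => r (Nat.div i 2)) (Nat.mod i 2)) t

end Pool.Agent.MP_61a8e3_al.T
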