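import Mathlib

/-! A Dehn twist has infinite order in the outer automorphism group of a surface group. -/

set_option autoImplicit false

namespace Pool.Agent.MP_61a8e3_al.Tw

/-- the inner automorphisms, in the form used by the frozen statements -/
abbrev Inn (G : Type) [Group G] : Subgroup (MulAut G) :=
  Subgroup.normalClosure (Set.range (MulAut.conj : G →* MulAut G))

/-- the outer automorphism group, in the form used by the frozen statements -/
abbrev Out (G : Type) [Group G] : Type := MulAut G ⧸ Inn G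

theorem mem_Inn_iff {G : Type} [Group G] (α : MulAut G) :
    α ∈ Inn G ↔ ∃ g : G, α = MulAut.conj g := by
  have hn : (MulAut.conj : G →* MulAut G).range.Normal := by
    constructor
    rintro _ ⟨g, rfl⟩ β
    refine ⟨β g, ?_⟩
    ext x
    simp [MulAut.conj_apply, mul_assoc]
  have : Inn G = (MulAut.conj : G →* MulAut G).range := by
    apply le_antisymm
    · exact Subgroup.normalClosure_le_normal (fun x hx => hx)
    · intro x hx
      exact Subgroup.subset_normalClosure hx
  rw [this]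
  constructor
  · rintro ⟨g, rfl⟩; exact ⟨g, rfl⟩
  · rintro ⟨g, rfl⟩; exact ⟨g, rfl⟩

/-- the standard presentation of the surface group of genus `g` -/
abbrev Surf (g : ℕ) : Type :=
  PresentedGroup ({(List.ofFn (fun i : Fin g => FreeGroup.of (Sum.inl i : Fin g ⊕ Fin g) *
    FreeGroup.of (Sum.inr i : Fin g ⊕ Fin g) * (FreeGroup.of (Sum.inl i : Fin g ⊕ Fin g))⁻¹ *
    (FreeGroup.of (Sum.inr i : Fin g ⊕ Fin g))⁻¹)).prod} : Set (FreeGroup (Fin g ⊕ Fin g)))

/-- the image of the surface relator -/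
theorem lift_rel_G4 {G : Type} [Group G] {g : ℕ} (f : Fin g ⊕ Fin g → G) :
    FreeGroup.lift f (List.ofFn (fun i : Fin g => FreeGroup.of (Sum.inl i : Fin g ⊕ Fin g) *
      FreeGroup.of (Sum.inr i : Fin g ⊕ Fin g) * (FreeGroup.of (Sum.inl i : Fin g ⊕ Fin g))⁻¹ *
      (FreeGroup.of (Sum.inr i : Fin g ⊕ Fin g))⁻¹)).prod =
    (List.ofFn (fun i : Fin g => f (Sum.inl i) * f (Sum.inr i) * (f (Sum.inl i))⁻¹ *
      (f (Sum.inr i))⁻¹)).prod := by
  rw [map_list_prod, List.map_ofFn]
  congr 2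
  funext i
  simp

theorem lift_of_G4 {α : Type} {rels : Set (FreeGroup α)} {r : FreeGroup α} (hr : r ∈ rels) :
    FreeGroup.lift (PresentedGroup.of : α → PresentedGroup rels) r = 1 := by
  have h : FreeGroup.lift (PresentedGroup.of : α → PresentedGroup rels) =
      PresentedGroup.mk rels := FreeGroup.ext_hom _ _ fun a => by simp [PresentedGroup.of]
  rw [h]
  exact PresentedGroup.one_of_mem hr

theorem surf_rel_G4 (g : ℕ) :
    (List.ofFn (fun i : Fin g => (PresentedGroup.of (Sum.inl i) : Surf g) *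
      PresentedGroup.of (Sum.inr i) * (PresentedGroup.of (Sum.inl i))⁻¹ *
      (PresentedGroup.of (Sum.inr i))⁻¹)).prod = 1 := by
  rw [← lift_rel_G4 (PresentedGroup.of : Fin g ⊕ Fin g → Surf g)]
  exact lift_of_G4 rfl

/-- the images of the generators under a power of the twist -/
def twF_G4 {g : ℕ} (i0 : Fin g) (n : ℤ) : Fin g ⊕ Fin g → Surf g :=
  Sum.elim (fun i => PresentedGroup.of (.inl i)) fun i =>
    PresentedGroup.of (.inr i) * PresentedGroup.of (.inl i) ^ (if i = i0 then n else 0)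

/-- a power of the twist -/
def tw_G4 {g : ℕ} (i0 : Fin g) (n : ℤ) : Surf g →* Surf g :=
  PresentedGroup.toGroup (f := twF_G4 i0 n) (by
    rintro r rfl
    rw [lift_rel_G4, ← surf_rel_G4 g]
    congr 2
    funext i
    simp only [twF_G4, Sum.elim_inl, Sum.elim_inr]
    group)

theorem tw_inl_G4 {g : ℕ} (i0 : Fin g) (n : ℤ) (i : Fin g) :
    tw_G4 i0 n (PresentedGroup.of (.inl i)) = PresentedGroup.of (.inl i) :=
  PresentedGroup.toGroup.of _

theorem tw_inr_G4 {g : ℕ} (i0 : Fin g) (n : ℤ) (i : Fin g) :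
    tw_G4 i0 n (PresentedGroup.of (.inr i)) =
      PresentedGroup.of (.inr i) * PresentedGroup.of (.inl i) ^ (if i = i0 then n else 0) :=
  PresentedGroup.toGroup.of _

theorem tw_add_G4 {g : ℕ} (i0 : Fin g) (m n : ℤ) :
    (tw_G4 i0 m).comp (tw_G4 i0 n) = tw_G4 i0 (m + n) := by
  refine PresentedGroup.ext fun i => ?_
  rcases i with i | i
  · simp only [MonoidHom.comp_apply, tw_inl_G4]
  · simp only [MonoidHom.comp_apply, tw_inr_G4, map_mul, map_zpow, tw_inl_G4]
    split_ifs <;> group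

theorem tw_zero_G4 {g : ℕ} (i0 : Fin g) : tw_G4 i0 0 = MonoidHom.id _ := by
  refine PresentedGroup.ext fun i => ?_
  rcases i with i | i
  · simp only [tw_inl_G4, MonoidHom.id_apply]
  · simp [tw_inr_G4]

/-- the twist powers as automorphisms -/
def twA_G4 {g : ℕ} (i0 : Fin g) : Multiplicative ℤ →* MulAut (Surf g) where
  toFun n := MonoidHom.toMulEquiv (tw_G4 i0 n.toAdd) (tw_G4 i0 (-n.toAdd))
    (by rw [tw_add_G4, neg_add_cancel, tw_zero_G4]) (by rw [tw_add_G4, add_neg_cancel, tw_zero_G4])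
  map_one' := by
    ext x
    change tw_G4 i0 0 x = x
    rw [tw_zero_G4]; rfl
  map_mul' m n := by
    ext x
    change tw_G4 i0 (m.toAdd + n.toAdd) x = tw_G4 i0 m.toAdd (tw_G4 i0 n.toAdd x)
    rw [← tw_add_G4]; rfl

/-- the exponent sum of the first generators -/
def cnt_G4 (g : ℕ) : Surf g →* Multiplicative ℤ :=
  PresentedGroup.toGroup (f := Sum.elim (fun _ => Multiplicative.ofAdd 1) fun _ => 1) (by
    rintro r rfl
    rw [lift_rel_G4]
    simp)

/-- a Dehn twist has infinite order in the outer automorphism group -/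
theorem exists_inj_int (g : ℕ) (hg : 1 ≤ g) :
    ∃ j : Multiplicative ℤ →* Out (Surf g), Function.Injective j := by
  refine ⟨(QuotientGroup.mk' _).comp (twA_G4 ⟨0, hg⟩), (injective_iff_map_eq_one _).2 ?_⟩
  intro n hn
  obtain ⟨c, hc⟩ := (mem_Inn_iff _).1 ((QuotientGroup.eq_one_iff _).1 hn)
  have h1 : tw_G4 ⟨0, hg⟩ n.toAdd (PresentedGroup.of (.inr ⟨0, hg⟩)) =
      c * PresentedGroup.of (.inr ⟨0, hg⟩) * c⁻¹ := by
    have h0 := DFunLike.congr_fun hc (PresentedGroup.of (.inr ⟨0, hg⟩) : Surf g)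
    rw [MulAut.conj_apply] at h0
    exact h0
  have h2 := congrArg (cnt_G4 g) h1
  have ha : ∀ i, cnt_G4 g (PresentedGroup.of (.inl i)) = Multiplicative.ofAdd 1 :=
    fun i => PresentedGroup.toGroup.of _
  have hb : ∀ i, cnt_G4 g (PresentedGroup.of (.inr i)) = 1 := fun i => PresentedGroup.toGroup.of _
  rw [tw_inr_G4, if_pos rfl] at h2
  simp only [map_mul, map_zpow, map_inv, ha, hb, one_mul, mul_one, mul_inv_cancel] at h2
  have h3 := congrArg Multiplicative.toAdd h2
  simpa using h3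

end Pool.Agent.MP_61a8e3_al.Tw
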